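import Pool.Agent.Q197.SP.R78b

/-!
# Elements in the intervals `[b^n, b^n + c p_n]`: the exact entropy budget of the exceptions near Cramér's model
-/

set_option autoImplicit false

namespace Pool.Agent.Results.MP_78b39f_nt.BudgetOfExceptions

open Finset Filter Pool.Agent.Q197.WN Pool.Agent.Q197.SP.R78b
open scoped Topology

theorem result (b c : ℝ) (hb : 1 < b) (hc : 0 < c) :
    (∀ θ : ℝ, 0 ≤ θ → θ < 1 → 1 < c / Real.log b * rate θ → ∀ ε : ℝ, 0 < ε →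
      CritPhase cr (W b c) (fun n S => (N b c n S : ℝ) ≤ θ * E b c n)
        (fun n S => (θ - ε) * E b c n ≤ N b c n S ∧ (N b c n S : ℝ) ≤ θ * E b c n)) ∧
    (∀ θ : ℝ, 1 < θ → 1 < c / Real.log b * rate θ → ∀ ε : ℝ, 0 < ε →
      CritPhase cr (W b c) (fun n S => θ * E b c n ≤ (N b c n S : ℝ))
        (fun n S => θ * E b c n ≤ N b c n S ∧ (N b c n S : ℝ) ≤ (θ + ε) * E b c n)) := by
  obtain ⟨h1, h2⟩ := all_parts b c hb hc
  exact ⟨fun θ t0 t1 hk ε hε => (h1 θ t0 t1 hk ε hε).2.2, fun θ t1 hk ε hε => (h2 θ t1 hk ε hε).2.2⟩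

end Pool.Agent.Results.MP_78b39f_nt.BudgetOfExceptions
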