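import Pool.Agent.Q120.PT.Basic
import Pool.Agent.Q120.PT.Primes
import Pool.Agent.Q120.MF.Exists

/-!
# Elements of Cramér's random set just above the powers of a real number

The question asks for primes in the intervals `[2^n, 2^n + p_n]`, `p_n` the `n`-th prime. In Cramér's model, for all
real `β > 1` and `c > 0`, almost surely all but finitely many of the intervals `[β^n, β^n + c p_n]` contain an
element if and only if `log β < c`; otherwise infinitely many of them contain none.
-/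

set_option autoImplicit false

namespace Pool.Agent.Results.MP_78b39f_nt.CriticalBase

open Finset MeasureTheory Filter Pool.Agent.Q120.ET Pool.Agent.Q120.MF Pool.Agent.Q120.PT

theorem hl : Tendsto (fun x : ℕ => Real.log (x : ℝ)) atTop atTop :=
  Real.tendsto_log_atTop.comp tendsto_natCast_atTop_atTop

/-- The integers in `[β^n, β^n + c p_n]`, if `β^n ≥ 3`. -/
noncomputable def W (β c : ℝ) (n : ℕ) : Finset ℕ := if 3 ≤ β ^ n then cwin (β ^ n) (c * pp n) else ∅

theorem hW {β c : ℝ} (hc : 0 < c) (i : ℕ) : ∀ m ∈ W β c i, 3 ≤ m := by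
  intro m hm
  unfold W at hm
  split_ifs at hm with h
  · rw [mem_cwin (by linarith) (by positivity)] at hm
    have h2 : (3 : ℝ) ≤ m := by linarith
    exact_mod_cast h2
  · exact absurd hm (Finset.notMem_empty _)

theorem ev_three {β : ℝ} (hβ : 1 < β) : ∀ᶠ n : ℕ in atTop, 3 ≤ β ^ n :=
  (tendsto_pow_atTop_atTop_of_one_lt hβ).eventually_ge_atTop 3

theorem pp_sq : ∀ᶠ n : ℕ in atTop, (pp n : ℝ) ≤ (n : ℝ) ^ 3 := by
  obtain ⟨C, hC, h⟩ := pp_upper
  filter_upwards [h, hl.eventually_ge_atTop 1, eventually_ge_atTop 3, hl.eventually_ge_atTop C] with n hn hL hn3 hLC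
  have hn0 : (3 : ℝ) ≤ n := by exact_mod_cast hn3
  have h1 : Real.log (n : ℝ) ≤ n - 1 := Real.log_le_sub_one_of_pos (by linarith)
  have h2 : Real.log (Real.log n) ≤ Real.log n - 1 := Real.log_le_sub_one_of_pos (by linarith)
  have h3 : Real.log (n : ℝ) + Real.log (Real.log n) + C ≤ 3 * n := by linarith
  calc (pp n : ℝ) ≤ n * (Real.log n + Real.log (Real.log n) + C) := hn
    _ ≤ n * (3 * n) := mul_le_mul_of_nonneg_left h3 (by linarith)
    _ ≤ (n : ℝ) ^ 3 := by nlinarith [mul_nonneg (mul_nonneg (show (0 : ℝ) ≤ n by linarith) (show (0 : ℝ) ≤ n by linarith)) (show (0 : ℝ) ≤ n - 3 by linarith)]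

theorem ev_len {β c D : ℝ} (hβ : 1 < β) (hc : 0 < c) (hD : 0 < D) : ∀ᶠ n : ℕ in atTop, c * pp n < D * β ^ n := by
  have h1 := (tendsto_pow_const_div_const_pow_of_one_lt 3 hβ).eventually_lt_const (show (0 : ℝ) < D / c by positivity)
  filter_upwards [pp_sq, h1] with n hn h2
  rw [div_lt_div_iff₀ (by positivity) hc] at h2
  nlinarith

theorem summable_of {β c : ℝ} (hβ : 1 < β) (hc : 0 < c) (h : Real.log β < c) :
    Summable (fun n => pFree (W β c n)) := by
  have hlb : 0 < Real.log β := Real.log_pos hβ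
  obtain ⟨η, hη⟩ : ∃ η : ℝ, η = (c - Real.log β) / (4 * c) := ⟨_, rfl⟩
  have hη0 : 0 < η := by rw [hη]; apply div_pos <;> linarith
  have hη1 : η < 1 := by rw [hη, div_lt_one (by linarith)]; linarith
  obtain ⟨lam, hlam⟩ : ∃ lam : ℝ, lam = Real.log β := ⟨_, rfl⟩
  rw [← hlam] at hlb h hη
  -- `(1 + η) lam + η lam ≤ c (1 - η)`
  have hkey : (1 + η) * lam + η * lam ≤ c * (1 - η) := by
    have h1 : 4 * (c * η) = c - lam := by rw [hη]; field_simp
    nlinarith
  have hg : Summable (fun n : ℕ => (n : ℝ) ^ (-(1 + η))) := Real.summable_nat_rpow.2 (by linarith)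
  refine Summable.of_norm_bounded_eventually_nat hg ?_
  filter_upwards [ev_three hβ, pp_lower hη0 hη1, ev_len hβ hc one_pos, eventually_ge_atTop 3,
    hl.eventually_ge_atTop 1, (tendsto_natCast_atTop_atTop (R := ℝ)).eventually_ge_atTop ((2 + η) / (η * lam) + 1)] with
    n hn hp hlen hn3 hL hnbig
  have hn0 : (3 : ℝ) ≤ n := by exact_mod_cast hn3
  have hX0 : 0 < β ^ n := by linarith
  rw [Real.norm_of_nonneg (pFree_nonneg (hW hc n))]
  have hz : ∀ m ∈ W β c n, (m : ℝ) ≤ 2 * β ^ n := by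
    intro m hm
    unfold W at hm
    rw [if_pos hn, mem_cwin (by linarith) (by positivity)] at hm
    linarith [hm.2]
  refine (pFree_le (hW hc n) hz).trans ?_
  have hcard : c * pp n - 1 ≤ ((W β c n).card : ℝ) := by
    unfold W
    rw [if_pos hn]
    exact (card_cwin (by linarith) (by positivity)).1
  have hlogz : Real.log (2 * β ^ n) ≤ n * lam + 1 := by
    rw [Real.log_mul (by norm_num) hX0.ne', Real.log_pow, hlam]
    linarith [Real.log_two_lt_d9]
  have hlogz0 : 0 < Real.log (2 * β ^ n) := Real.log_pos (by linarith)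
  have hexp : (n : ℝ) ^ (-(1 + η)) = Real.exp (Real.log n * (-(1 + η))) := Real.rpow_def_of_pos (by linarith) _
  rw [hexp]
  apply Real.exp_le_exp.2
  rw [mul_neg, neg_le_neg_iff, le_div_iff₀ hlogz0]
  refine le_trans ?_ hcard
  obtain ⟨L, hLd⟩ : ∃ L : ℝ, L = Real.log n := ⟨_, rfl⟩
  rw [← hLd] at hp hL ⊢
  have h1 : L * (1 + η) * Real.log (2 * β ^ n) ≤ L * (1 + η) * (n * lam + 1) :=
    mul_le_mul_of_nonneg_left hlogz (by positivity)
  have h2 : c * ((1 - η) * (n * L)) ≤ c * pp n := mul_le_mul_of_nonneg_left hp hc.le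
  have h3 : ((1 + η) * lam + η * lam) * (n * L) ≤ c * (1 - η) * (n * L) :=
    mul_le_mul_of_nonneg_right hkey (by positivity)
  have h4 : (2 + η) ≤ η * lam * n := by
    have h5 : (2 + η) / (η * lam) ≤ n := by linarith
    rw [div_le_iff₀ (by positivity)] at h5
    linarith
  have h5 : (2 + η) * L ≤ η * lam * n * L := mul_le_mul_of_nonneg_right h4 (by linarith)
  nlinarith

theorem not_summable_of {β c : ℝ} (hβ : 1 < β) (hc : 0 < c) (h : c ≤ Real.log β) :
    ¬ Summable (fun n => pFree (W β c n)) := by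
  have hlb : 0 < Real.log β := Real.log_pos hβ
  obtain ⟨lam, hlam⟩ : ∃ lam : ℝ, lam = Real.log β := ⟨_, rfl⟩
  rw [← hlam] at hlb h
  obtain ⟨C, hC, hpu⟩ := pp_upper
  intro hs
  have h1 : Summable (fun n : ℕ => Real.exp (-(C + 2)) * (1 / ((n : ℝ) * Real.log n))) := by
    refine Summable.of_norm_bounded_eventually_nat hs ?_
    -- auxiliary limits
    have hx1 : Tendsto (fun n : ℕ => (n : ℝ) * lam) atTop atTop :=
      tendsto_natCast_atTop_atTop.atTop_mul_const hlb
    have hll : Tendsto (fun n : ℕ => Real.log (n : ℝ) / n) atTop (nhds 0) :=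
      (Real.isLittleO_log_id_atTop.tendsto_div_nhds_zero).comp tendsto_natCast_atTop_atTop
    have hx2 := (hll.eventually_lt_const (show (0 : ℝ) < lam / (4 * 3) by positivity))
    filter_upwards [ev_three hβ, hpu, eventually_ge_atTop 3, hl.eventually_ge_atTop 1, hx1.eventually_ge_atTop 8,
      hx2, hl.eventually_ge_atTop C] with n hn hp hn3 hL hnl hsmall hLC
    have hn0 : (3 : ℝ) ≤ n := by exact_mod_cast hn3
    have hX0 : 0 < β ^ n := by linarith
    have hnpos : (0 : ℝ) < n := by linarith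
    obtain ⟨L, hLd⟩ : ∃ L : ℝ, L = Real.log n := ⟨_, rfl⟩
    rw [← hLd] at hp hL hsmall hLC ⊢
    have hL0 : 0 < L := by linarith
    rw [Real.norm_of_nonneg (by positivity)]
    have hlogX : Real.log (β ^ n) = n * lam := by rw [Real.log_pow, hlam]
    refine le_trans ?_ (le_pFree (y := β ^ n) ?_ hX0 ?_)
    · have e1 : Real.exp (-(C + 2)) * (1 / ((n : ℝ) * L)) = Real.exp (-(L + Real.log L + C + 2)) := by
        have e2 : 1 / ((n : ℝ) * L) = Real.exp (-(L + Real.log L)) := by
          rw [Real.exp_neg, Real.exp_add, Real.exp_log hL0, hLd, Real.exp_log hnpos, one_div]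
        rw [e2, ← Real.exp_add]
        congr 1
        ring
      rw [e1, hlogX]
      apply Real.exp_le_exp.2
      have hcard : ((W β c n).card : ℝ) ≤ c * pp n + 1 := by
        unfold W
        rw [if_pos hn]
        exact (card_cwin (by linarith) (by positivity)).2
      obtain ⟨t, ht⟩ : ∃ t : ℝ, t = 1 / (n * lam) := ⟨_, rfl⟩
      have ht0 : 0 < t := by rw [ht]; positivity
      have ht8 : t ≤ 1 / 8 := by rw [ht]; exact one_div_le_one_div_of_le (by norm_num) hnl
      have e3 : 1 / (↑n * lam) + 2 / (↑n * lam) ^ 2 = t + 2 * t ^ 2 := by rw [ht]; ring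
      rw [e3]
      have h2 : ((W β c n).card : ℝ) * (t + 2 * t ^ 2) ≤ (c * pp n + 1) * (t + 2 * t ^ 2) :=
        mul_le_mul_of_nonneg_right hcard (by positivity)
      obtain ⟨u, hu⟩ : ∃ u : ℝ, u = L + Real.log L + C := ⟨_, rfl⟩
      rw [← hu] at hp
      have hlogL : Real.log L ≤ L - 1 := Real.log_le_sub_one_of_pos hL0
      have hlogL0 : 0 ≤ Real.log L := Real.log_nonneg hL
      have hu3 : u ≤ 3 * L := by rw [hu]; linarith
      have hu0 : 0 ≤ u := by rw [hu]; linarith
      have h3 : c * pp n ≤ lam * (n * u) := by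
        calc c * pp n ≤ lam * pp n := mul_le_mul_of_nonneg_right h (Nat.cast_nonneg _)
          _ ≤ lam * (n * u) := mul_le_mul_of_nonneg_left hp hlb.le
      have h4 : lam * (n * u) * t = u := by
        rw [ht]; field_simp
      have h5 : u * t ≤ 1 / 4 := by
        have h6 : L < lam / (4 * 3) * n := by
          rw [div_lt_iff₀ hnpos] at hsmall
          exact hsmall
        have h7 : u ≤ 1 / 4 * (n * lam) := by linarith
        calc u * t ≤ 1 / 4 * (n * lam) * t := mul_le_mul_of_nonneg_right h7 ht0.le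
          _ = 1 / 4 := by rw [ht]; field_simp
      have h8 : (c * pp n + 1) * (t + 2 * t ^ 2) ≤ (lam * (n * u) + 1) * (t + 2 * t ^ 2) :=
        mul_le_mul_of_nonneg_right (by linarith) (by positivity)
      have h9 : (lam * (n * u) + 1) * (t + 2 * t ^ 2) = u + 2 * (u * t) + t + 2 * t ^ 2 := by
        calc (lam * (n * u) + 1) * (t + 2 * t ^ 2) =
            lam * (n * u) * t + 2 * (lam * (n * u) * t) * t + t + 2 * t ^ 2 := by ring
          _ = _ := by rw [h4]; ring
      have h10 : 2 * t ^ 2 ≤ 1 / 8 := by nlinarith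
      rw [← hu]
      linarith
    · rw [hlogX]
      linarith
    · intro m hm
      unfold W at hm
      rw [if_pos hn, mem_cwin (by linarith) (by positivity)] at hm
      exact hm.1
  apply not_summable_inv_mul_log
  refine (h1.mul_left (Real.exp (C + 2))).congr (fun n => ?_)
  rw [← mul_assoc, ← Real.exp_add]
  norm_num

theorem disjoint_of {β c : ℝ} (hβ : 1 < β) (hc : 0 < c) :
    ∃ N0 : ℕ, ∀ i j, N0 ≤ i → N0 ≤ j → i ≠ j → Disjoint (W β c i) (W β c j) := by
  obtain ⟨N0, hN0⟩ := eventually_atTop.1 ((ev_len hβ hc (show (0 : ℝ) < β - 1 by linarith)).and (ev_three hβ))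
  have key : ∀ i j, N0 ≤ i → i < j → ∀ m, m ∈ W β c i → m ∈ W β c j → False := by
    intro i j hi hij m hm1 hm2
    obtain ⟨h1, h2⟩ := hN0 i hi
    obtain ⟨_, h2'⟩ := hN0 j (by omega)
    unfold W at hm1 hm2
    rw [if_pos h2, mem_cwin (by linarith) (by positivity)] at hm1
    rw [if_pos h2', mem_cwin (by linarith) (by positivity)] at hm2
    have h3 : β ^ (i + 1) ≤ β ^ j := pow_le_pow_right₀ hβ.le hij
    have h4 : β ^ (i + 1) = β ^ i * β := pow_succ _ _
    nlinarith [hm1.2, hm2.1]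
  refine ⟨N0, ?_⟩
  intro i j hi hj hij
  rw [Finset.disjoint_left]
  intro m hm1 hm2
  rcases lt_or_gt_of_ne hij with h | h
  · exact key i j hi h m hm1 hm2
  · exact key j i hj h m hm2 hm1

/-- **The critical base for the windows `[β^n, β^n + c p_n]` in Cramér's model.** -/
theorem result :
    -- Cramér's model exists
    (IsProbabilityMeasure cramerMeasure ∧ IsCramer cramerMeasure cramerSet) ∧
    ∀ (Ω : Type) [MeasurableSpace Ω] (μ : Measure Ω) [IsProbabilityMeasure μ] (A : Ω → Set ℕ),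
      IsCramer μ A → ∀ β c : ℝ, 1 < β → 0 < c →
        (Real.log β < c → ∀ᵐ ω ∂μ, ∀ᶠ n : ℕ in atTop,
          ∃ a ∈ A ω, β ^ n ≤ (a : ℝ) ∧ (a : ℝ) ≤ β ^ n + c * Nat.nth Nat.Prime (n - 1)) ∧
        (c ≤ Real.log β → ∀ᵐ ω ∂μ, ∃ᶠ n : ℕ in atTop,
          ∀ a ∈ A ω, ¬ (β ^ n ≤ (a : ℝ) ∧ (a : ℝ) ≤ β ^ n + c * Nat.nth Nat.Prime (n - 1))) := by
  refine ⟨⟨inferInstance, isCramer⟩, ?_⟩
  intro Ω _ μ _ A hA β c hβ hc
  constructor
  · intro h
    filter_upwards [hit_all hA (W β c) (hW hc) (summable_of hβ hc h)] with ω hω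
    filter_upwards [hω, ev_three hβ] with n hn hn3
    obtain ⟨a, ha, haW⟩ := hn
    unfold W at haW
    rw [if_pos hn3, mem_cwin (by linarith) (by positivity)] at haW
    exact ⟨a, ha, haW⟩
  · intro h
    obtain ⟨N0, hN0⟩ := disjoint_of hβ hc
    filter_upwards [free_often hA (W β c) (hW hc) N0 hN0 (not_summable_of hβ hc h)] with ω hω
    refine (hω.and_eventually (ev_three hβ)).mono ?_
    rintro n ⟨hn, hn3⟩ a ha hcon
    apply hn a ha
    unfold W
    rw [if_pos hn3, mem_cwin (by linarith) (by positivity)]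
    exact hcon

end Pool.Agent.Results.MP_78b39f_nt.CriticalBase
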