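import Pool.Agent.Q167.LI.J
import Pool.Agent.Q120.PT.Primes
import Pool.Agent.Q120.PT.Basic

/-!
# How much independence primes just above powers of two need

In Cramér's random model with independence of bounded order only, the intervals
`[b^n, b^n + c p_n]` all contain elements of the random set from some point on as soon as
the order at `N` is at least `(a - o(1)) log log N` with `Λ(a) < c / log b`, and need not
if the order is at most `(a + o(1)) log log N` with `c / log b < Λ(a)`.
-/

set_option autoImplicit false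

namespace Pool.Agent.Results.MP_78b39f_nt.IteratedLogIndependence

open Finset MeasureTheory Filter Topology Pool.Agent.Q120.PT Q167.LI

/-- Cramér's random model with independence of order `κ`: `E n` is the event that the integer `n`
belongs to the random set, and for every finite set `T` of integers `n ≥ 3` with at most `κ n`
elements for all `n ∈ T` the probability that `T` is contained in the random set is
`∏ 1 / log n`. -/
structure CramerModel {Ω : Type} [MeasurableSpace Ω] (P : Measure Ω) (κ : ℕ → ℕ)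
    (E : ℕ → Set Ω) : Prop where
  meas : ∀ n, MeasurableSet (E n)
  indep : ∀ T : Finset ℕ, (∀ n ∈ T, 3 ≤ n ∧ T.card ≤ κ n) →
    P (⋂ n ∈ T, E n) = ENNReal.ofReal (∏ n ∈ T, 1 / Real.log n)

/-- The decreasing function `Λ(a) = (a/2) e^(2/a - 1)` for `0 < a < 2`, and `1` for `a ≥ 2`. -/
noncomputable def Lambda (a : ℝ) : ℝ := if a < 2 then a / 2 * Real.exp (2 / a - 1) else 1

/-- `p_n` is at most `(1 + δ) n log n` for large `n`. -/
lemma pp_le {δ : ℝ} (hδ : 0 < δ) : ∀ᶠ n : ℕ in atTop, (pp n : ℝ) ≤ (1 + δ) * (n * Real.log n) := by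
  obtain ⟨C, hC, h⟩ := pp_upper
  have h1 : Tendsto (fun n : ℕ => Real.log (Real.log n) / Real.log n) atTop (𝓝 0) := by
    have h2 := (Real.isLittleO_log_id_atTop).tendsto_div_nhds_zero
    exact h2.comp tendsto_log_nat
  have h3 : Tendsto (fun n : ℕ => C / Real.log n) atTop (𝓝 0) :=
    tendsto_const_nhds.div_atTop tendsto_log_nat
  have h4 := (h1.add h3).eventually_lt_const (show (0:ℝ) + 0 < δ by linarith)
  filter_upwards [h, h4, tendsto_log_nat.eventually_ge_atTop 1] with n g1 g2 g3
  have hl : 0 < Real.log n := by linarith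
  rw [← add_div, div_lt_iff₀ hl] at g2
  refine g1.trans ?_
  have h5 : (n : ℝ) * (Real.log n + Real.log (Real.log n) + C) ≤
      n * ((1 + δ) * Real.log n) :=
    mul_le_mul_of_nonneg_left (by linarith) (Nat.cast_nonneg _)
  linarith

/-- `c p_n` is small compared with `b^n`. -/
lemma pp_small {b c η : ℝ} (hb : 1 < b) (hη : 0 < η) :
    ∀ᶠ n : ℕ in atTop, c * (pp n : ℝ) ≤ η * b ^ n := by
  have h1 := pp_le one_pos
  have h2 := tendsto_pow_const_div_const_pow_of_one_lt 2 hb
  have h3 : ∀ᶠ n : ℕ in atTop, (n : ℝ) ^ 2 / b ^ n < η / (2 * (|c| + 1)) :=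
    h2.eventually_lt_const (by positivity)
  filter_upwards [h1, h3, eventually_ge_atTop 1] with n g1 g2 g3
  have hn : (1:ℝ) ≤ n := by exact_mod_cast g3
  have hl : Real.log n ≤ n := (Real.log_le_sub_one_of_pos (by linarith)).trans (by linarith)
  have hpn : (pp n : ℝ) ≤ 2 * (n : ℝ) ^ 2 := by
    have : (n : ℝ) * Real.log n ≤ n * n := mul_le_mul_of_nonneg_left hl (by linarith)
    nlinarith
  have hbn : 0 < b ^ n := by positivity
  rw [div_lt_iff₀ hbn] at g2
  have h4 : c * (pp n : ℝ) ≤ (|c| + 1) * (2 * (n : ℝ) ^ 2) := by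
    have h5 : c * (pp n : ℝ) ≤ |c| * (pp n : ℝ) :=
      mul_le_mul_of_nonneg_right (le_abs_self c) (Nat.cast_nonneg _)
    have h6 : |c| * (pp n : ℝ) ≤ (|c| + 1) * (2 * (n : ℝ) ^ 2) :=
      mul_le_mul (by linarith) hpn (Nat.cast_nonneg _) (by positivity)
    exact h5.trans h6
  have h7 : (|c| + 1) * (2 * (n : ℝ) ^ 2) ≤ (|c| + 1) * (2 * (η / (2 * (|c| + 1)) * b ^ n)) :=
    mul_le_mul_of_nonneg_left (by linarith) (by positivity)
  have h8 : (|c| + 1) * (2 * (η / (2 * (|c| + 1)) * b ^ n)) = η * b ^ n := by
    have : |c| + 1 ≠ 0 := by positivity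
    field_simp
  linarith

lemma tendsto_pow_nat {b : ℝ} (hb : 1 < b) : Tendsto (fun n : ℕ => b ^ n) atTop atTop :=
  tendsto_pow_atTop_atTop_of_one_lt hb

/-- integers in the windows are large -/
lemma of_large {b c : ℝ} (hb : 1 < b) (hc : 0 < c) {Q : ℕ → Prop} (hQ : ∀ᶠ N : ℕ in atTop, Q N) :
    ∀ᶠ n : ℕ in atTop, ∀ y ∈ cwin (b ^ n) (c * pp n), Q y := by
  obtain ⟨N₀, hN₀⟩ := eventually_atTop.1 hQ
  filter_upwards [(tendsto_pow_nat hb).eventually_ge_atTop (N₀ : ℝ)] with n hn y hy
  rw [mem_cwin (by positivity) (by positivity)] at hy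
  exact hN₀ y (by exact_mod_cast hn.trans hy.1)

lemma log_ge {b c : ℝ} (hb : 1 < b) (hc : 0 < c) {n y : ℕ} (hy : y ∈ cwin (b ^ n) (c * pp n)) :
    n * Real.log b ≤ Real.log y := by
  rw [mem_cwin (by positivity) (by positivity)] at hy
  rw [← Real.log_pow]
  exact Real.log_le_log (by positivity) hy.1

lemma log_le {b c : ℝ} (hb : 1 < b) (hc : 0 < c) : ∀ᶠ n : ℕ in atTop,
    ∀ y ∈ cwin (b ^ n) (c * pp n), Real.log y ≤ n * Real.log b + 1 := by
  filter_upwards [pp_small (c := c) hb one_pos] with n hn y hy
  rw [mem_cwin (by positivity) (by positivity)] at hy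
  have hbn : 0 < b ^ n := by positivity
  have h1 : (y : ℝ) ≤ 2 * b ^ n := by linarith
  have hy0 : (0:ℝ) < y := lt_of_lt_of_le hbn hy.1
  have h2 : Real.log y ≤ Real.log (2 * b ^ n) := Real.log_le_log hy0 h1
  rw [Real.log_mul two_ne_zero hbn.ne', Real.log_pow] at h2
  have h3 := Real.log_two_lt_d9
  linarith

lemma loglog_low {b : ℝ} (hb : 1 < b) {u v : ℝ} (huv : u < v) : ∀ᶠ n : ℕ in atTop,
    u * Real.log n ≤ v * Real.log (n * Real.log b) := by
  have hlb : 0 < Real.log b := Real.log_pos hb
  have h1 : Tendsto (fun n : ℕ => (v - u) * Real.log (n : ℝ)) atTop atTop :=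
    tendsto_log_nat.const_mul_atTop (by linarith)
  filter_upwards [h1.eventually_ge_atTop (- (v * Real.log (Real.log b))),
    eventually_ge_atTop 1] with n g1 g2
  have hn : (0:ℝ) < n := by exact_mod_cast g2
  rw [Real.log_mul hn.ne' hlb.ne']
  linarith

lemma loglog_up {b : ℝ} (hb : 1 < b) {u v : ℝ} (hu : 0 < u) (huv : u < v) : ∀ᶠ n : ℕ in atTop,
    u * Real.log (n * Real.log b + 1) ≤ v * Real.log n := by
  have hlb : 0 < Real.log b := Real.log_pos hb
  have h1 : Tendsto (fun n : ℕ => (v - u) * Real.log (n : ℝ)) atTop atTop :=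
    tendsto_log_nat.const_mul_atTop (by linarith)
  filter_upwards [h1.eventually_ge_atTop (u * Real.log (Real.log b + 1)),
    eventually_ge_atTop 1] with n g1 g2
  have hn : (1:ℝ) ≤ n := by exact_mod_cast g2
  have h2 : Real.log (n * Real.log b + 1) ≤ Real.log (n * (Real.log b + 1)) := by
    apply Real.log_le_log (by positivity)
    nlinarith
  rw [Real.log_mul (by positivity) (by positivity)] at h2
  have h3 := mul_le_mul_of_nonneg_left h2 hu.le
  linarith

lemma Lambda_eq (a : ℝ) : Lambda a = Lam a := rfl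

/-- (1) and (2): the threshold for the windows `[b^n, b^n + c p_n]`; (3) the case `b = 2`,
`c = 1`. -/
theorem result :
    (∀ b c a : ℝ, 1 < b → 0 < c → 0 < a → Lambda a < c / Real.log b →
      ∀ κ : ℕ → ℕ, (∀ ε : ℝ, 0 < ε → ∀ᶠ N : ℕ in atTop,
        (a - ε) * Real.log (Real.log N) ≤ κ N) →
      ∀ (Ω : Type) [MeasurableSpace Ω] (P : Measure Ω) [IsProbabilityMeasure P] (E : ℕ → Set Ω),
        CramerModel P κ E → ∀ᵐ ω ∂P, ∀ᶠ n : ℕ in atTop, ∃ N : ℕ, b ^ n ≤ (N : ℝ) ∧
          (N : ℝ) ≤ b ^ n + c * Nat.nth Nat.Prime (n - 1) ∧ ω ∈ E N) ∧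
    (∀ b c a : ℝ, 1 < b → 0 < c → 0 < a → c / Real.log b < Lambda a →
      ∀ κ : ℕ → ℕ, (∀ ε : ℝ, 0 < ε → ∀ᶠ N : ℕ in atTop,
        (κ N : ℝ) ≤ (a + ε) * Real.log (Real.log N)) →
      ∃ (Ω : Type) (_ : MeasurableSpace Ω) (P : Measure Ω) (_ : IsProbabilityMeasure P)
        (E : ℕ → Set Ω), CramerModel P κ E ∧ ∀ᵐ ω ∂P, ∃ᶠ n : ℕ in atTop, ∀ N : ℕ,
          b ^ n ≤ (N : ℝ) → (N : ℝ) ≤ b ^ n + c * Nat.nth Nat.Prime (n - 1) → ω ∉ E N) ∧
    (Lambda (19 / 20) < 1 / Real.log 2 ∧ 1 / Real.log 2 < Lambda (47 / 50)) := by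
  refine ⟨?_, ?_, ?_, ?_⟩
  · intro b c a hb hc ha hΛ κ hκ Ω _ P _ E hM
    have hlb : 0 < Real.log b := Real.log_pos hb
    have hτ0 : 0 < c / Real.log b := by positivity
    have hmain := sparse_upper P hM.meas hM.indep (W := fun n => cwin (b ^ n) (c * pp n))
      (L := fun n => n * Real.log b + 1) (a := a) (τ := c / Real.log b) ha hΛ
      (tendsto_atTop_add_const_right _ _ (tendsto_natCast_atTop_atTop.atTop_mul_const hlb))
      (by
        filter_upwards [of_large hb hc (eventually_ge_atTop 3), log_le hb hc] with n g1 g2 y hy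
        exact ⟨g1 y hy, g2 y hy⟩)
      (by
        intro τ' hτ'
        rw [lt_div_iff₀ hlb] at hτ'
        obtain ⟨d, hd1, hd2⟩ := exists_between (show max (τ' * Real.log b / c) 0 < 1 by
          apply max_lt _ one_pos
          rw [div_lt_one hc]
          exact hτ')
        have hd0 : 0 < d := lt_of_le_of_lt (le_max_right _ _) hd1
        have hdc : τ' * Real.log b < d * c := by
          have := lt_of_le_of_lt (le_max_left _ _) hd1
          rw [div_lt_iff₀ hc] at this
          exact this
        have h1 : Tendsto (fun n : ℕ => (d * c - τ' * Real.log b) * n) atTop atTop :=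
          tendsto_natCast_atTop_atTop.const_mul_atTop (by linarith)
        filter_upwards [pp_lower (δ := 1 - d) (by linarith) (by linarith),
          h1.eventually_ge_atTop (|τ'| + 1), tendsto_log_nat.eventually_ge_atTop 1] with n g1 g2 g3
        have h2 := (card_cwin (X := b ^ n) (H := c * pp n) (by positivity) (by positivity)).1
        rw [sub_sub_cancel] at g1
        have h3 : c * (d * (n * Real.log n)) ≤ c * pp n := mul_le_mul_of_nonneg_left g1 hc.le
        have h4 : τ' ≤ |τ'| := le_abs_self _
        have h5 : (|τ'| + 1) * Real.log n ≤ (d * c - τ' * Real.log b) * n * Real.log n :=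
          mul_le_mul_of_nonneg_right g2 (by linarith)
        have h6 : τ' * Real.log n ≤ |τ'| * Real.log n :=
          mul_le_mul_of_nonneg_right h4 (by linarith)
        nlinarith)
      (by
        intro a' ha'
        obtain ⟨ε, hε1, hε2⟩ := exists_between (show a' < a from ha')
        obtain ⟨ε', hε'1, hε'2⟩ := exists_between (show max ε 0 < a from max_lt hε2 ha)
        have hε'0 : 0 < ε' := lt_of_le_of_lt (le_max_right _ _) hε'1
        have hε'a : a' < ε' := lt_trans hε1 (lt_of_le_of_lt (le_max_left _ _) hε'1)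
        filter_upwards [of_large hb hc (hκ (a - ε') (by linarith)), loglog_low hb hε'a,
          (tendsto_natCast_atTop_atTop.atTop_mul_const hlb).eventually_ge_atTop (1:ℝ)]
          with n g1 g2 g3 y hy
        have h1 := g1 y hy
        rw [sub_sub_cancel] at h1
        refine g2.trans (le_trans ?_ h1)
        apply mul_le_mul_of_nonneg_left _ hε'0.le
        exact Real.log_le_log (by linarith) (log_ge hb hc hy))
    filter_upwards [hmain] with ω hω
    filter_upwards [hω] with n hn
    obtain ⟨y, hy, hyE⟩ := hn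
    rw [mem_cwin (by positivity) (by positivity)] at hy
    exact ⟨y, hy.1, hy.2, hyE⟩
  · intro b c a hb hc ha hΛ κ hκ
    have hlb : 0 < Real.log b := Real.log_pos hb
    have hτ0 : 0 < c / Real.log b := by positivity
    obtain ⟨Ω, mΩ, P, hP, E, hE, hT, hae⟩ := sparse_lower
      (W := fun n => cwin (b ^ n) (c * pp n)) (L := fun n => n * Real.log b) (a := a)
      (τ := c / Real.log b) ha hτ0 hΛ (κ := κ)
      (by
        obtain ⟨n₀, hn₀⟩ := eventually_atTop.1 (pp_small (c := c) hb
          (show 0 < (b - 1) / 2 by linarith))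
        refine ⟨n₀, ?_⟩
        have key : ∀ n n' y, n₀ ≤ n → n < n' → y ∈ cwin (b ^ n) (c * pp n) →
            y ∈ cwin (b ^ n') (c * pp n') → False := by
          intro n n' y hn hlt h1 h2
          rw [mem_cwin (by positivity) (by positivity)] at h1 h2
          have h3 := hn₀ n hn
          have hbn : 0 < b ^ n := by positivity
          have h4 : b ^ (n + 1) ≤ b ^ n' := pow_le_pow_right₀ hb.le hlt
          rw [pow_succ] at h4
          have h5 : b ^ n' ≤ b ^ n + (b - 1) / 2 * b ^ n := by linarith [h2.1, h1.2]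
          nlinarith
        intro n n' y h1 h2 h3 h4
        rcases lt_trichotomy n n' with h | h | h
        · exact absurd h4 (fun h4 => key n n' y h1 h h3 h4)
        · exact h
        · exact absurd h3 (fun h3 => key n' n y h2 h h4 h3))
      (tendsto_natCast_atTop_atTop.atTop_mul_const hlb)
      (by
        filter_upwards [of_large hb hc (eventually_ge_atTop 3)] with n g1 y hy
        exact ⟨g1 y hy, log_ge hb hc hy⟩)
      (by
        intro τ' hτ'
        rw [div_lt_iff₀ hlb] at hτ'
        obtain ⟨d, hd1, hd2⟩ := exists_between (show 1 < τ' * Real.log b / c by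
          rw [lt_div_iff₀ hc]
          linarith)
        rw [lt_div_iff₀ hc] at hd2
        have h1 : Tendsto (fun n : ℕ => (τ' * Real.log b - d * c) * n) atTop atTop :=
          tendsto_natCast_atTop_atTop.const_mul_atTop (by linarith)
        filter_upwards [pp_le (δ := d - 1) (by linarith), h1.eventually_ge_atTop 1,
          tendsto_log_nat.eventually_ge_atTop 1] with n g1 g2 g3
        have h2 := (card_cwin (X := b ^ n) (H := c * pp n) (by positivity) (by positivity)).2
        have h3 : c * (pp n : ℝ) ≤ c * ((1 + (d - 1)) * (n * Real.log n)) :=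
          mul_le_mul_of_nonneg_left g1 hc.le
        have h5 : 1 * Real.log n ≤ (τ' * Real.log b - d * c) * n * Real.log n :=
          mul_le_mul_of_nonneg_right g2 (by linarith)
        nlinarith)
      (by
        intro τ' hτ'
        rw [lt_div_iff₀ hlb] at hτ'
        obtain ⟨d, hd1, hd2⟩ := exists_between (show max (τ' * Real.log b / c) 0 < 1 by
          apply max_lt _ one_pos
          rw [div_lt_one hc]
          exact hτ')
        have hd0 : 0 < d := lt_of_le_of_lt (le_max_right _ _) hd1
        have hdc : τ' * Real.log b < d * c := by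
          have := lt_of_le_of_lt (le_max_left _ _) hd1
          rw [div_lt_iff₀ hc] at this
          exact this
        have h1 : Tendsto (fun n : ℕ => (d * c - τ' * Real.log b) * n) atTop atTop :=
          tendsto_natCast_atTop_atTop.const_mul_atTop (by linarith)
        filter_upwards [pp_lower (δ := 1 - d) (by linarith) (by linarith),
          h1.eventually_ge_atTop 1, tendsto_log_nat.eventually_ge_atTop 1] with n g1 g2 g3
        have h2 := (card_cwin (X := b ^ n) (H := c * pp n) (by positivity) (by positivity)).1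
        rw [sub_sub_cancel] at g1
        have h3 : c * (d * (n * Real.log n)) ≤ c * pp n := mul_le_mul_of_nonneg_left g1 hc.le
        have h5 : 1 * Real.log n ≤ (d * c - τ' * Real.log b) * n * Real.log n :=
          mul_le_mul_of_nonneg_right g2 (by linarith)
        nlinarith)
      (by
        intro a' ha'
        obtain ⟨e, he1, he2⟩ := exists_between ha'
        filter_upwards [of_large hb hc (hκ (e - a) (by linarith)), log_le hb hc,
          loglog_up hb (show 0 < e by linarith) he2,
          (tendsto_natCast_atTop_atTop.atTop_mul_const hlb).eventually_ge_atTop (1:ℝ)]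
          with n g1 g2 g3 g4 y hy
        have h1 := g1 y hy
        rw [add_sub_cancel] at h1
        refine h1.trans (le_trans ?_ g3)
        apply mul_le_mul_of_nonneg_left _ (by linarith)
        have h2 := log_ge hb hc hy
        exact Real.log_le_log (by linarith) (g2 y hy))
    refine ⟨Ω, mΩ, P, hP, E, ⟨hE, hT⟩, ?_⟩
    filter_upwards [hae] with ω hω
    refine hω.mono fun n hn N h1 h2 => ?_
    exact hn N ((mem_cwin (by positivity) (by positivity)).2 ⟨h1, h2⟩)
  · -- Λ(0.95) < 1 / log 2
    unfold Lambda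
    rw [if_pos (by norm_num), lt_div_iff₀ (Real.log_pos (by norm_num))]
    have h1 : Real.exp (2 / (19 / 20) - 1) ≤ 3.0203 := by
      have e1 : (2 / (19 / 20) - 1 : ℝ) = 1 + 2 / 19 := by norm_num
      rw [e1, Real.exp_add]
      have h2 := Real.exp_one_lt_d9
      have h3 : Real.exp (2 / 19) ≤ 1.1111 := by
        have := Real.exp_bound' (x := 2 / 19) (by norm_num) (by norm_num) (n := 3) (by norm_num)
        refine this.trans ?_
        norm_num [Finset.sum_range_succ, Nat.factorial]
      have h4 := Real.exp_pos 1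
      have h5 := Real.exp_pos (2 / 19 : ℝ)
      nlinarith
    have h2 := Real.log_two_lt_d9
    have h3 : 0 < Real.log 2 := Real.log_pos (by norm_num)
    have h4 : 0 < Real.exp (2 / (19 / 20) - 1) := Real.exp_pos _
    nlinarith
  · unfold Lambda
    rw [if_pos (by norm_num), div_lt_iff₀ (Real.log_pos (by norm_num))]
    have h1 : 3.087 ≤ Real.exp (2 / (47 / 50) - 1) := by
      have e1 : (2 / (47 / 50) - 1 : ℝ) = 1 + 6 / 47 := by norm_num
      rw [e1, Real.exp_add]
      have h2 := Real.exp_one_gt_d9
      have h3 : 1.1358 ≤ Real.exp (6 / 47) := by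
        have := Real.sum_le_exp_of_nonneg (x := 6 / 47) (by norm_num) 3
        refine le_trans ?_ this
        norm_num [Finset.sum_range_succ, Nat.factorial]
      have h4 := Real.exp_pos 1
      nlinarith
    have h2 := Real.log_two_gt_d9
    nlinarith

end Pool.Agent.Results.MP_78b39f_nt.IteratedLogIndependence
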